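import Pool.Agent.Zk46.NP2.Defs
import Pool.Agent.W809.PW.Sqr

/-!
# Near-palindromes divisible by large squares (module SQ for helper46)
-/

set_option autoImplicit false

namespace Pool.Agent.Zk40.NP2

open Finset Filter Topology Pool.Agent.Helper112
open Pool.Agent.H39R3.PB (ph ph_nonneg ph_le_one)
open Pool.Agent.H39R3.PS (EM)
open Pool.Agent.W89.PW (fr)
open Pool.Agent.Zk46.NP2
open Pool.Agent.W809.PWSqr (EM_mono EM_sum)

lemma fa_nonneg (b : ℕ) (t : ℕ → ℕ) (L c : ℕ) (α : ℝ) : 0 ≤ fa b t L c α :=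
  mul_nonneg (ph_nonneg _ _) (ph_nonneg _ _)

lemma fa_le_one (b : ℕ) (t : ℕ → ℕ) (L c : ℕ) (α : ℝ) : fa b t L c α ≤ 1 :=
  mul_le_one₀ (ph_le_one _ _) (ph_nonneg _ _) (ph_le_one _ _)

lemma Fn_nonneg (b : ℕ) (t : ℕ → ℕ) (L J : ℕ) (α : ℝ) : 0 ≤ Fn b t L J α :=
  prod_nonneg fun _ _ => fa_nonneg _ _ _ _ _

lemma Fn_anti (b : ℕ) (t : ℕ → ℕ) (L : ℕ) {J : ℕ} (hJ : J ≤ L) (α : ℝ) :
    Fn b t L L α ≤ Fn b t L J α := by
  unfold Fn
  obtain ⟨K, rfl⟩ := Nat.exists_eq_add_of_le hJ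
  rw [prod_range_add]
  exact mul_le_of_le_one_right (prod_nonneg fun _ _ => fa_nonneg _ _ _ _ _)
    (prod_le_one (fun _ _ => fa_nonneg _ _ _ _ _) (fun _ _ => fa_le_one _ _ _ _ _))

/-! ### the counting function and exponential sums -/

lemma norm_sum_pv {b : ℕ} {t : ℕ → ℕ} (hs : ∀ c, 0 < sz b t c) (ht : ∀ c, 0 < t c) (L : ℕ)
    (α : ℝ) : ‖∑ m ∈ digs b t L, ee (α * (pv b L m : ℝ))‖ = XX b t L * Fn b t L L α := by
  have h1 : ∀ m : Fin L → ℕ × ℕ, ee (α * (pv b L m : ℝ)) =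
      ee (α * ((b : ℝ) ^ (2 * L + 2) + (b : ℝ) ^ (L + 1) + 1)) *
        ∏ c : Fin L, (ee (((m c).1 : ℝ) * (fr b L c * α)) * ee (((m c).2 : ℝ) * (lo b L c * α))) := by
    intro m
    have h2 : ∀ S : Finset (Fin L),
        ∏ c ∈ S, (ee (((m c).1 : ℝ) * (fr b L c * α)) * ee (((m c).2 : ℝ) * (lo b L c * α))) =
        ee (∑ c ∈ S, (((m c).1 : ℝ) * (fr b L c * α) + ((m c).2 : ℝ) * (lo b L c * α))) := by
      intro S
      induction S using Finset.induction_on with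
      | empty => simp [ls_ee_zero]
      | insert a S ha ih => rw [prod_insert ha, sum_insert ha, ls_ee_add, ls_ee_add, ih]
    rw [h2, ← ls_ee_add]
    congr 1
    unfold pv
    push_cast
    rw [mul_add, mul_sum]
    congr 1
    refine sum_congr rfl fun c _ => ?_
    ring
  rw [sum_congr rfl (fun m _ => h1 m), ← mul_sum, norm_mul, ls_norm_ee, one_mul]
  have h3 : ∑ m ∈ digs b t L,
      ∏ c : Fin L, (ee (((m c).1 : ℝ) * (fr b L c * α)) * ee (((m c).2 : ℝ) * (lo b L c * α))) =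
      ∏ c : Fin L, ∑ x ∈ range (sz b t c) ×ˢ range (t c),
        (ee ((x.1 : ℝ) * (fr b L c * α)) * ee ((x.2 : ℝ) * (lo b L c * α))) := by
    unfold digs
    rw [Finset.prod_univ_sum]
  rw [h3, norm_prod]
  have h4 : ∀ c : Fin L, ‖∑ x ∈ range (sz b t c) ×ˢ range (t c),
        (ee ((x.1 : ℝ) * (fr b L c * α)) * ee ((x.2 : ℝ) * (lo b L c * α)))‖ =
      ((sz b t c : ℝ) * t c) * fa b t L c α := by
    intro c
    have hsr : (sz b t c : ℝ) ≠ 0 := by exact_mod_cast (hs c).ne'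
    have htr : (t c : ℝ) ≠ 0 := by exact_mod_cast (ht c).ne'
    have e : ∑ x ∈ range (sz b t c) ×ˢ range (t c),
        (ee ((x.1 : ℝ) * (fr b L c * α)) * ee ((x.2 : ℝ) * (lo b L c * α))) =
        (∑ x ∈ range (sz b t c), ee ((x : ℝ) * (fr b L c * α))) *
          ∑ y ∈ range (t c), ee ((y : ℝ) * (lo b L c * α)) := by
      rw [Finset.sum_mul_sum, Finset.sum_product]
    rw [e, norm_mul]
    unfold fa ph
    generalize ‖∑ x ∈ range (sz b t c), ee ((x : ℝ) * (fr b L c * α))‖ = u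
    generalize ‖∑ x ∈ range (t c), ee ((x : ℝ) * (lo b L c * α))‖ = v
    field_simp
  rw [prod_congr rfl (fun c _ => h4 c), prod_mul_distrib]
  unfold XX Fn
  rw [Fin.prod_univ_eq_prod_range (fun c => (sz b t c : ℝ) * t c) L,
    Fin.prod_univ_eq_prod_range (fun c => fa b t L c α) L]

lemma cnt_le {b : ℕ} {t : ℕ → ℕ} (hs : ∀ c, 0 < sz b t c) (ht : ∀ c, 0 < t c) (L M : ℕ)
    (hM : 0 < M) : cnt b t L M ≤ XX b t L * EM M (Fn b t L L) := by
  have hM1 : (0 : ℝ) < M := by exact_mod_cast hM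
  have h1 : ((M * cnt b t L M : ℝ) : ℂ) =
      ∑ a ∈ range M, ∑ m ∈ digs b t L, ee (((a : ℝ) / M) * (pv b L m : ℝ)) := by
    rw [Finset.sum_comm]
    have h2 : ∀ m ∈ digs b t L,
        ∑ a ∈ range M, ee (((a : ℝ) / M) * (pv b L m : ℝ)) =
        if M ∣ pv b L m then (M : ℂ) else 0 := by
      intro m _
      have h3 := Pool.Agent.H623R3.PBT8.orth hM (pv b L m) 0
      simp only [Nat.modEq_zero_iff_dvd] at h3
      rw [← h3]
      refine Finset.sum_congr rfl fun a _ => ?_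
      congr 1
      push_cast
      ring
    rw [Finset.sum_congr rfl h2, ← Finset.sum_filter, Finset.sum_const, nsmul_eq_mul]
    unfold cnt
    push_cast
    ring
  have h2 : (M : ℝ) * cnt b t L M ≤ ∑ a ∈ range M, XX b t L * Fn b t L L ((a : ℝ) / M) := by
    have h3 : (0 : ℝ) ≤ M * cnt b t L M := by
      unfold cnt
      positivity
    have h4 : ‖((M * cnt b t L M : ℝ) : ℂ)‖ = M * cnt b t L M := by
      rw [Complex.norm_real, Real.norm_of_nonneg h3]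
    rw [← h4, h1]
    refine (norm_sum_le _ _).trans (le_of_eq ?_)
    refine Finset.sum_congr rfl fun a _ => norm_sum_pv hs ht L _
  unfold EM
  rw [← Finset.mul_sum] at h2
  rw [← mul_div_assoc, le_div_iff₀ hM1]
  linarith

/-! ### splitting -/

/-- pointwise splitting -/
theorem split (b : ℕ) (t : ℕ → ℕ) (L J k K : ℕ) (lam : ℝ) (h0 : 0 < lam) (hJ : J ≤ k * K)
    (hJL : J ≤ L) (α : ℝ) :
    Fn b t L L α ≤ (∑ i ∈ range k, lam * ∏ c ∈ (range L).filter (fun c => ¬ (c < J ∧ c / K = i)),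
      fa b t L c α) + (lam ^ k)⁻¹ * Fn b t L J α ^ 2 := by
  set x : ℕ → ℝ := fun i => ∏ c ∈ (range L).filter (fun c => c < J ∧ c / K = i), fa b t L c α
    with hx
  have hx0 : ∀ i, 0 ≤ x i := fun i => prod_nonneg fun _ _ => fa_nonneg _ _ _ _ _
  have hnn : ∀ i ∈ range k, 0 ≤ lam * ∏ c ∈ (range L).filter (fun c => ¬ (c < J ∧ c / K = i)),
      fa b t L c α := fun i _ => mul_nonneg h0.le (prod_nonneg fun _ _ => fa_nonneg _ _ _ _ _)
  have hlast : 0 ≤ (lam ^ k)⁻¹ * Fn b t L J α ^ 2 := by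
    have := Fn_nonneg b t L J α
    positivity
  by_cases hc : ∃ i ∈ range k, x i ≤ lam
  · obtain ⟨i, hi, hxi⟩ := hc
    have e1 : Fn b t L L α = x i * ∏ c ∈ (range L).filter (fun c => ¬ (c < J ∧ c / K = i)),
        fa b t L c α := by
      rw [hx]
      exact (prod_filter_mul_prod_filter_not (range L) (fun c => c < J ∧ c / K = i) _).symm
    have e2 : Fn b t L L α ≤ lam * ∏ c ∈ (range L).filter (fun c => ¬ (c < J ∧ c / K = i)),
        fa b t L c α := by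
      rw [e1]
      exact mul_le_mul_of_nonneg_right hxi (prod_nonneg fun _ _ => fa_nonneg _ _ _ _ _)
    have e3 := single_le_sum hnn hi
    linarith
  · push Not at hc
    have e1 : Fn b t L J α = ∏ i ∈ range k, x i := by
      unfold Fn
      rw [hx]
      have hmaps : ∀ c ∈ range J, c / K ∈ range k := by
        intro c hc
        rw [mem_range] at hc ⊢
        exact Nat.div_lt_of_lt_mul (by rw [mul_comm]; omega)
      rw [← prod_fiberwise_of_maps_to hmaps]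
      apply prod_congr rfl
      intro i _
      apply prod_congr _ (fun _ _ => rfl)
      ext c
      simp only [mem_filter, mem_range]
      constructor
      · rintro ⟨h1, h2⟩
        exact ⟨by omega, h1, h2⟩
      · rintro ⟨_, h1, h2⟩
        exact ⟨h1, h2⟩
    have e2 : lam ^ k ≤ Fn b t L J α := by
      rw [e1]
      calc lam ^ k = ∏ i ∈ range k, lam := by simp
        _ ≤ ∏ i ∈ range k, x i := prod_le_prod (fun _ _ => h0.le) (fun i hi => (hc i hi).le)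
    have e3 : Fn b t L L α ≤ Fn b t L J α := Fn_anti b t L hJL α
    set y := Fn b t L J α with hy
    have hlk : 0 < lam ^ k := by positivity
    have hy0 : 0 < y := hlk.trans_le e2
    have e4 : y ≤ (lam ^ k)⁻¹ * y ^ 2 := by
      rw [inv_mul_eq_div, le_div_iff₀ (by positivity)]
      calc y * lam ^ k ≤ y * y := by gcongr
        _ = y ^ 2 := by ring
    have e6 := sum_nonneg hnn
    linarith

/-! ### the products -/

section products

variable {b : ℕ} {η τ κ K : ℝ} {t : ℕ → ℕ} {L : ℕ}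

lemma CC_ge (b : ℕ) (hb : 1 ≤ b) : 2 ≤ CC b := by
  unfold CC
  have h1 : 0 ≤ Real.log b := Real.log_nonneg (by exact_mod_cast hb)
  nlinarith

lemma sz_ge (h : Ok b t) (c : ℕ) : (b : ℝ) / 2 ≤ sz b t c := by
  have h1 := h c
  have h2 : b ≤ 2 * sz b t c := by
    unfold sz
    omega
  have h3 : (b : ℝ) ≤ 2 * sz b t c := by exact_mod_cast h2
  linarith

lemma q_pos (hb : 1 ≤ b) (h : Ok b t) (c : ℕ) : 0 < CC b / (b * t c) := by
  have h1 := CC_ge b hb
  have h2 : (0 : ℝ) < b := by exact_mod_cast hb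
  have h3 : (0 : ℝ) < t c := by exact_mod_cast (h c).1
  positivity

lemma q_ge (hb : 1 ≤ b) (h : Ok b t) (c : ℕ) : 1 / (b : ℝ) ^ 2 ≤ CC b / (b * t c) := by
  have h1 := CC_ge b hb
  have h2 : (0 : ℝ) < b := by exact_mod_cast hb
  have h3 : (0 : ℝ) < t c := by exact_mod_cast (h c).1
  have h4 : (4 : ℝ) * t c ≤ b := by exact_mod_cast (h c).2
  rw [div_le_div_iff₀ (by positivity) (by positivity)]
  have h5 : (b : ℝ) * t c ≤ b ^ 2 := by nlinarith
  have h6 : (0 : ℝ) < (b : ℝ) ^ 2 := by positivity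
  nlinarith

lemma st_le (hb : 1 ≤ b) (h : Ok b t) (c : ℕ) : 1 / ((sz b t c : ℝ) * t c) ≤ 2 / (b * t c) := by
  have h2 : (0 : ℝ) < b := by exact_mod_cast hb
  have h3 : (0 : ℝ) < t c := by exact_mod_cast (h c).1
  have h4 := sz_ge h c
  have h5 : (0 : ℝ) < sz b t c := by linarith
  rw [div_le_div_iff₀ (by positivity) (by positivity)]
  nlinarith

lemma prod_q (hb : 1 ≤ b) (h : Ok b t) (x : ℝ) (J : ℕ) :
    ∏ c ∈ range J, (x / ((b : ℝ) * t c)) = (x / b) ^ J / ∏ c ∈ range J, (t c : ℝ) := by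
  rw [prod_div_distrib, prod_const, card_range, prod_mul_distrib, prod_const, card_range, div_pow,
    div_div]

lemma prod_t_pos (h : Ok b t) (J : ℕ) : 0 < ∏ c ∈ range J, (t c : ℝ) :=
  prod_pos fun c _ => by exact_mod_cast (h c).1

/-- the whole product -/
lemma whole (hp : Par b η τ κ K) (hA : Adm b η τ K L t) {P : ℝ} (hP0 : 0 ≤ P)
    (hP : P ≤ (b : ℝ) ^ (κ * L)) :
    P * ∏ c ∈ range L, (CC b / (b * t c)) ≤ K * ((b : ℝ) ^ κ * CC b / (b : ℝ) ^ (1 + τ)) ^ L := by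
  have hb64 := hp.b64
  have hb1 : 1 ≤ b := by omega
  have hb0 : (0 : ℝ) < b := by exact_mod_cast hb1
  have hC := CC_ge b hb1
  have hK : 0 < K := lt_of_lt_of_le one_pos hp.K1
  rw [prod_q hb1 hA.ok]
  have hX := prod_t_pos hA.ok L
  have hT := hA.total
  set X := ∏ c ∈ range L, (t c : ℝ) with hXdef
  have hY : 0 < (b : ℝ) ^ (τ * L) := Real.rpow_pos_of_pos hb0 _
  have e1 : (b : ℝ) ^ (κ * L) = ((b : ℝ) ^ κ) ^ L := by
    rw [Real.rpow_mul hb0.le, Real.rpow_natCast]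
  have e2 : (b : ℝ) ^ (τ * L) = ((b : ℝ) ^ τ) ^ L := by
    rw [Real.rpow_mul hb0.le, Real.rpow_natCast]
  have e3 : (b : ℝ) ^ (1 + τ) = b * (b : ℝ) ^ τ := by
    rw [Real.rpow_add hb0, Real.rpow_one]
  have h1 : (CC b / b) ^ L / X ≤ (CC b / b) ^ L * (K / (b : ℝ) ^ (τ * L)) := by
    rw [div_eq_mul_inv]
    refine mul_le_mul_of_nonneg_left ?_ (by positivity)
    rw [inv_eq_one_div, div_le_div_iff₀ hX hY]
    linarith
  calc P * ((CC b / b) ^ L / X) ≤ (b : ℝ) ^ (κ * L) * ((CC b / b) ^ L * (K / (b : ℝ) ^ (τ * L))) :=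
        mul_le_mul hP h1 (by positivity) (by positivity)
    _ = K * ((b : ℝ) ^ κ * CC b / (b : ℝ) ^ (1 + τ)) ^ L := by
        rw [e1, e2, e3, div_pow, div_pow, mul_pow, mul_pow]
        field_simp

/-- the product without one block -/
lemma part (hb : 1 ≤ b) (h : Ok b t) (J N i : ℕ) (hN : 1 ≤ N) :
    ∏ c ∈ (range L).filter (fun c => ¬ (c < J ∧ c / N = i)), (CC b / (b * t c)) ≤
      ((b : ℝ) ^ 2) ^ N * ∏ c ∈ range L, (CC b / (b * t c)) := by
  have hb0 : (0 : ℝ) < b := by exact_mod_cast hb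
  have hb1 : (1 : ℝ) ≤ b := by exact_mod_cast hb
  have h1 : ((range L).filter (fun c => (c < J ∧ c / N = i))).card ≤ N := by
    have : (range L).filter (fun c => (c < J ∧ c / N = i)) ⊆ Ico (i * N) ((i + 1) * N) := by
      intro c hc
      rw [mem_filter] at hc
      obtain ⟨_, _, h⟩ := hc
      rw [Nat.div_eq_iff (by omega)] at h
      rw [mem_Ico, add_mul]
      omega
    refine (card_le_card this).trans ?_
    rw [Nat.card_Ico, add_mul]
    omega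
  have h2 : (1 / (b : ℝ) ^ 2) ^ N ≤
      ∏ c ∈ (range L).filter (fun c => c < J ∧ c / N = i), (CC b / (b * t c)) := by
    have h0 : (0 : ℝ) < 1 / (b : ℝ) ^ 2 := by positivity
    have h3 : 1 / (b : ℝ) ^ 2 ≤ 1 := by
      rw [div_le_one (by positivity)]
      nlinarith
    calc (1 / (b : ℝ) ^ 2) ^ N ≤ (1 / (b : ℝ) ^ 2) ^
          ((range L).filter (fun c => (c < J ∧ c / N = i))).card :=
          pow_le_pow_of_le_one h0.le h3 h1
      _ = ∏ c ∈ (range L).filter (fun c => c < J ∧ c / N = i), (1 / (b : ℝ) ^ 2) := by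
          rw [prod_const]
      _ ≤ _ := prod_le_prod (fun _ _ => h0.le) fun c _ => q_ge hb h c
  rw [← prod_filter_mul_prod_filter_not (range L) (fun c => c < J ∧ c / N = i)]
  have h4 : 0 ≤ ∏ c ∈ (range L).filter (fun c => ¬ (c < J ∧ c / N = i)), (CC b / (b * t c)) :=
    prod_nonneg fun c _ => (q_pos hb h c).le
  have h5 : (1 : ℝ) ≤ ((b : ℝ) ^ 2) ^ N *
      ∏ c ∈ (range L).filter (fun c => c < J ∧ c / N = i), (CC b / (b * t c)) := by
    calc (1 : ℝ) = ((b : ℝ) ^ 2) ^ N * (1 / (b : ℝ) ^ 2) ^ N := by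
          rw [← mul_pow, mul_one_div_cancel (by positivity), one_pow]
      _ ≤ _ := mul_le_mul_of_nonneg_left h2 (by positivity)
  calc ∏ c ∈ (range L).filter (fun c => ¬ (c < J ∧ c / N = i)), (CC b / (b * t c))
      = 1 * ∏ c ∈ (range L).filter (fun c => ¬ (c < J ∧ c / N = i)), (CC b / (b * t c)) := by
        rw [one_mul]
    _ ≤ (((b : ℝ) ^ 2) ^ N *
      ∏ c ∈ (range L).filter (fun c => c < J ∧ c / N = i), (CC b / (b * t c))) *
      ∏ c ∈ (range L).filter (fun c => ¬ (c < J ∧ c / N = i)), (CC b / (b * t c)) :=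
        mul_le_mul_of_nonneg_right h5 h4
    _ = _ := by ring

/-- the first part of the splitting -/
lemma first (hp : Par b η τ κ K) (hA : Adm b η τ K L t) {P : ℝ} (hP0 : 0 ≤ P)
    (hP : P ≤ (b : ℝ) ^ (κ * L)) {k : ℕ}
    (hk : (b : ℝ) ^ 2 * ((b : ℝ) ^ κ * CC b / (b : ℝ) ^ (1 + τ)) ^ k ≤ 1) {J : ℕ} (hJ : J ≤ L) (i : ℕ) :
    P * ∏ c ∈ (range L).filter (fun c => ¬ (c < J ∧ c / (J / k + 1) = i)), (CC b / (b * t c)) ≤
      K * (b : ℝ) ^ 2 := by
  have hb64 := hp.b64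
  have hb1 : 1 ≤ b := by omega
  have hb0 : (0 : ℝ) < b := by exact_mod_cast hb1
  have hC := CC_ge b hb1
  have hK : 0 < K := lt_of_lt_of_le one_pos hp.K1
  have h1 := part (L := L) hb1 hA.ok J (J / k + 1) i (Nat.le_add_left 1 _)
  have h2 := whole hp hA hP0 hP
  have hr0 : 0 < (b : ℝ) ^ κ * CC b / (b : ℝ) ^ (1 + τ) := by positivity
  have hr1 : (b : ℝ) ^ κ * CC b / (b : ℝ) ^ (1 + τ) ≤ 1 := by
    rw [div_le_one (by positivity)]
    exact hp.lev.le
  set r := (b : ℝ) ^ κ * CC b / (b : ℝ) ^ (1 + τ) with hr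
  have h3 : ((b : ℝ) ^ 2) ^ (J / k) * r ^ L ≤ 1 := by
    calc ((b : ℝ) ^ 2) ^ (J / k) * r ^ L ≤ ((b : ℝ) ^ 2) ^ (J / k) * r ^ (k * (J / k)) := by
          refine mul_le_mul_of_nonneg_left ?_ (by positivity)
          exact pow_le_pow_of_le_one hr0.le hr1 ((Nat.mul_div_le J k).trans hJ)
      _ = ((b : ℝ) ^ 2 * r ^ k) ^ (J / k) := by rw [mul_pow, pow_mul r k (J / k)]
      _ ≤ 1 := pow_le_one₀ (by positivity) hk
  calc P * ∏ c ∈ (range L).filter (fun c => ¬ (c < J ∧ c / (J / k + 1) = i)), (CC b / (b * t c))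
      ≤ P * (((b : ℝ) ^ 2) ^ (J / k + 1) * ∏ c ∈ range L, (CC b / (b * t c))) :=
        mul_le_mul_of_nonneg_left h1 hP0
    _ = ((b : ℝ) ^ 2) ^ (J / k + 1) * (P * ∏ c ∈ range L, (CC b / (b * t c))) := by ring
    _ ≤ ((b : ℝ) ^ 2) ^ (J / k + 1) * (K * r ^ L) := mul_le_mul_of_nonneg_left h2 (by positivity)
    _ = K * (b : ℝ) ^ 2 * (((b : ℝ) ^ 2) ^ (J / k) * r ^ L) := by rw [pow_succ]; ring
    _ ≤ K * (b : ℝ) ^ 2 * 1 := mul_le_mul_of_nonneg_left h3 (by positivity)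
    _ = _ := mul_one _

/-- the central product -/
lemma central (hp : Par b η τ κ K) (hA : Adm b η τ K L t) {P : ℝ} {J : ℕ} (hJ : J ≤ L)
    (hP : P ≤ (b : ℝ) ^ (J + 3)) :
    P * ∏ c ∈ range J, (1 / ((sz b t c : ℝ) * t c)) ≤ K * (b : ℝ) ^ 3 * (2 / (b : ℝ) ^ η) ^ J := by
  have hb64 := hp.b64
  have hb1 : 1 ≤ b := by omega
  have hb0 : (0 : ℝ) < b := by exact_mod_cast hb1
  have hK : 0 < K := lt_of_lt_of_le one_pos hp.K1
  have h0 : 0 ≤ ∏ c ∈ range J, (1 / ((sz b t c : ℝ) * t c)) := prod_nonneg fun _ _ => by positivity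
  have h1 : ∏ c ∈ range J, (1 / ((sz b t c : ℝ) * t c)) ≤ ∏ c ∈ range J, (2 / ((b : ℝ) * t c)) :=
    prod_le_prod (fun _ _ => by positivity) fun c _ => st_le hb1 hA.ok c
  rw [prod_q hb1 hA.ok] at h1
  have hX := prod_t_pos hA.ok J
  have hT := hA.central J hJ
  set X := ∏ c ∈ range J, (t c : ℝ) with hXdef
  have hY : 0 < (b : ℝ) ^ (η * J) := Real.rpow_pos_of_pos hb0 _
  have e2 : (b : ℝ) ^ (η * J) = ((b : ℝ) ^ η) ^ J := by
    rw [Real.rpow_mul hb0.le, Real.rpow_natCast]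
  have h2 : (2 / (b : ℝ)) ^ J / X ≤ (2 / (b : ℝ)) ^ J * (K / (b : ℝ) ^ (η * J)) := by
    rw [div_eq_mul_inv]
    refine mul_le_mul_of_nonneg_left ?_ (by positivity)
    rw [inv_eq_one_div, div_le_div_iff₀ hX hY]
    linarith
  calc P * ∏ c ∈ range J, (1 / ((sz b t c : ℝ) * t c))
      ≤ (b : ℝ) ^ (J + 3) * ((2 / (b : ℝ)) ^ J * (K / (b : ℝ) ^ (η * J))) :=
        mul_le_mul hP (h1.trans h2) h0 (by positivity)
    _ = K * (b : ℝ) ^ 3 * (2 / (b : ℝ) ^ η) ^ J := by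
        rw [e2, div_pow, div_pow, pow_add]
        field_simp

/-- the case `J = L` -/
lemma central_top (hp : Par b η τ κ K) (hA : Adm b η τ K L t) {P : ℝ} (hP0 : 0 ≤ P)
    (hP : P ≤ (b : ℝ) ^ (κ * L)) :
    P * ∏ c ∈ range L, (1 / ((sz b t c : ℝ) * t c)) ≤
      K * ((b : ℝ) ^ κ * CC b / (b : ℝ) ^ (1 + τ)) ^ L := by
  have hb64 := hp.b64
  have hb1 : 1 ≤ b := by omega
  have hb0 : (0 : ℝ) < b := by exact_mod_cast hb1
  have hC := CC_ge b hb1
  refine le_trans (mul_le_mul_of_nonneg_left ?_ hP0) (whole hp hA hP0 hP)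
  refine prod_le_prod (fun _ _ => by positivity) fun c _ => (st_le hb1 hA.ok c).trans ?_
  have h3 : (0 : ℝ) < t c := by exact_mod_cast (hA.ok c).1
  gcongr

end products

/-- one dyadic block of squares -/
theorem sq_block (hM : S_MEAN) (hLS : S_LS) {b : ℕ} {η τ κ K : ℝ} (hp : Par b η τ κ K) {t : ℕ → ℕ}
    {L : ℕ} (hA : Adm b η τ K L t) {k : ℕ} (hk1 : 1 ≤ k)
    (hk : (b : ℝ) ^ 2 * ((b : ℝ) ^ κ * CC b / (b : ℝ) ^ (1 + τ)) ^ k ≤ 1) {J P : ℕ} {T lam : ℝ}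
    (h0 : 0 < lam) (hT : ∀ n : ℕ, 1 ≤ n → n ≤ b ^ (2 * L + 3) → (n.divisors.card : ℝ) ≤ T)
    (hJL : J ≤ L) (hP : (P : ℝ) ≤ (b : ℝ) ^ (κ * L)) (h2 : b ^ (J + 2) ≤ P) :
    ∑ m ∈ (Ico P (2 * P)).filter (fun m => m.Coprime (2 * b)), cnt b t L (m ^ 2) ≤
      XX b t L * (k * lam * (K * (b : ℝ) ^ 2 + T) +
        (lam ^ k)⁻¹ * (P * ∏ c ∈ range J, (1 / ((sz b t c : ℝ) * t c)))) := by
  have hb64 := hp.b64
  have hP1 : 1 ≤ P := (Nat.one_le_pow _ _ (by omega)).trans h2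
  have hs : ∀ c, 0 < sz b t c := fun c => by
    have := hA.ok c
    unfold sz
    omega
  have ht : ∀ c, 0 < t c := fun c => (hA.ok c).1
  have hX : 0 ≤ XX b t L := prod_nonneg fun _ _ => by positivity
  obtain ⟨S, hS⟩ : ∃ S, (Ico P (2 * P)).filter (fun m => m.Coprime (2 * b)) = S := ⟨_, rfl⟩
  rw [hS]
  have hmem : ∀ m ∈ S, P ≤ m ∧ m < 2 * P ∧ m.Coprime (2 * b) := by
    intro m hm
    rw [← hS, mem_filter, mem_Ico] at hm
    exact ⟨hm.1.1, hm.1.2, hm.2⟩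
  have hpr : 0 ≤ ∏ c ∈ range J, (1 / ((sz b t c : ℝ) * t c)) := prod_nonneg fun _ _ => by positivity
  -- the second moment part
  have hB : ∀ m ∈ S, EM (m ^ 2) (fun x => Fn b t L J x ^ 2) ≤
      ∏ c ∈ range J, (1 / ((sz b t c : ℝ) * t c)) := by
    intro m hm
    obtain ⟨g1, _, g3⟩ := hmem m hm
    refine (hLS b t (by omega) hA.ok L J hJL).2 (m ^ 2) ?_
      ((Nat.Coprime.coprime_dvd_right (Dvd.intro_left 2 rfl) g3).pow_left 2)
    calc b ^ (2 * J + 3) ≤ b ^ (2 * J + 4) := Nat.pow_le_pow_right (by omega) (by omega)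
      _ = (b ^ (J + 2)) ^ 2 := by rw [← pow_mul]; congr 1; ring
      _ ≤ m ^ 2 := Nat.pow_le_pow_left (h2.trans g1) 2
  have hcard : (S.card : ℝ) ≤ P := by
    have : S.card ≤ P := by
      rw [← hS]
      refine (card_filter_le _ _).trans ?_
      rw [Nat.card_Ico]; omega
    exact_mod_cast this
  -- the majorant part
  have hG' : ∀ i, ∑ m ∈ S, EM (m ^ 2) (fun x => ∏ c ∈ (range L).filter
      (fun c => ¬ (c < J ∧ c / (J / k + 1) = i)), fa b t L c x) ≤ K * (b : ℝ) ^ 2 + T := by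
    intro i
    have e1 := (hM b t (by omega) hA.ok L T ((range L).filter
      (fun c => ¬ (c < J ∧ c / (J / k + 1) = i))) (filter_subset _ _) hT).2 P hP1
    rw [hS] at e1
    have e2 := first hp hA (Nat.cast_nonneg P) hP hk hJL i
    linarith
  have hJk : J ≤ k * (J / k + 1) := by
    have := Nat.lt_mul_div_succ J (show 0 < k by omega)
    rw [← Nat.succ_eq_add_one]
    exact this.le
  calc ∑ m ∈ S, cnt b t L (m ^ 2) ≤ ∑ m ∈ S, XX b t L * ((∑ i ∈ range k, lam * EM (m ^ 2)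
        (fun x => ∏ c ∈ (range L).filter (fun c => ¬ (c < J ∧ c / (J / k + 1) = i)), fa b t L c x)) +
        (lam ^ k)⁻¹ * EM (m ^ 2) (fun x => Fn b t L J x ^ 2)) := by
        refine sum_le_sum fun m hm => ?_
        obtain ⟨g1, _, g3⟩ := hmem m hm
        refine (cnt_le hs ht L (m ^ 2) (pow_pos (by omega) 2)).trans ?_
        refine mul_le_mul_of_nonneg_left ?_ hX
        rw [← EM_sum]
        exact EM_mono _ _ _ fun x => split b t L J k (J / k + 1) lam h0 hJk hJL x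
    _ = XX b t L * ((∑ i ∈ range k, lam * ∑ m ∈ S, EM (m ^ 2)
        (fun x => ∏ c ∈ (range L).filter (fun c => ¬ (c < J ∧ c / (J / k + 1) = i)), fa b t L c x)) +
        (lam ^ k)⁻¹ * ∑ m ∈ S, EM (m ^ 2) (fun x => Fn b t L J x ^ 2)) := by
        rw [← mul_sum, sum_add_distrib, sum_comm, ← mul_sum]
        simp only [mul_sum]
    _ ≤ XX b t L * ((∑ i ∈ range k, lam * (K * (b : ℝ) ^ 2 + T)) +
        (lam ^ k)⁻¹ * (P * ∏ c ∈ range J, (1 / ((sz b t c : ℝ) * t c)))) := by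
        refine mul_le_mul_of_nonneg_left ?_ hX
        refine add_le_add ?_ ?_
        · exact sum_le_sum fun i _ => mul_le_mul_of_nonneg_left (hG' i) h0.le
        · refine mul_le_mul_of_nonneg_left ?_ (by positivity)
          refine (sum_le_sum hB).trans ?_
          rw [sum_const, nsmul_eq_mul]
          exact mul_le_mul_of_nonneg_right hcard hpr
    _ = _ := by
        rw [sum_const, card_range, nsmul_eq_mul]
        ring

/-- covering by dyadic blocks -/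
lemma cover (b : ℕ) (t : ℕ → ℕ) (L : ℕ) (E : Finset ℕ) (Z : ℝ) (hZ : ∀ e ∈ E,
    ∑ m ∈ (Ico (2 ^ e) (2 * 2 ^ e)).filter (fun m => m.Coprime (2 * b)), cnt b t L (m ^ 2) ≤ Z)
    (Q : (Fin L → ℕ × ℕ) → Prop) [DecidablePred Q]
    (hQ : ∀ m, Q m → ∃ e ∈ E, ∃ p : ℕ, 2 ^ e ≤ p ∧ p < 2 * 2 ^ e ∧ p.Coprime (2 * b) ∧
      p ^ 2 ∣ pv b L m) :
    (((digs b t L).filter Q).card : ℝ) ≤ E.card * Z := by
  classical
  have hsub : (digs b t L).filter Q ⊆
      E.biUnion fun e => ((Ico (2 ^ e) (2 * 2 ^ e)).filter (fun m => m.Coprime (2 * b))).biUnion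
        fun p => (digs b t L).filter (fun m => p ^ 2 ∣ pv b L m) := by
    intro m hm
    obtain ⟨hm1, hm2⟩ := Finset.mem_filter.1 hm
    obtain ⟨e, he, p, h1, h2, h3, h4⟩ := hQ m hm2
    rw [Finset.mem_biUnion]
    refine ⟨e, he, ?_⟩
    rw [Finset.mem_biUnion]
    refine ⟨p, ?_, ?_⟩
    · rw [Finset.mem_filter, Finset.mem_Ico]; exact ⟨⟨h1, h2⟩, h3⟩
    · rw [Finset.mem_filter]
      exact ⟨hm1, h4⟩
  have h1 : (((digs b t L).filter Q).card : ℝ) ≤
      ∑ e ∈ E, ∑ p ∈ (Ico (2 ^ e) (2 * 2 ^ e)).filter (fun m => m.Coprime (2 * b)),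
        cnt b t L (p ^ 2) := by
    have h2 : ((digs b t L).filter Q).card ≤
        ∑ e ∈ E, ∑ p ∈ (Ico (2 ^ e) (2 * 2 ^ e)).filter (fun m => m.Coprime (2 * b)),
          ((digs b t L).filter (fun m => p ^ 2 ∣ pv b L m)).card := by
      refine (Finset.card_le_card hsub).trans (Finset.card_biUnion_le.trans ?_)
      exact Finset.sum_le_sum fun e _ => Finset.card_biUnion_le
    have h3 : (((digs b t L).filter Q).card : ℝ) ≤
        ((∑ e ∈ E, ∑ p ∈ (Ico (2 ^ e) (2 * 2 ^ e)).filter (fun m => m.Coprime (2 * b)),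
          ((digs b t L).filter (fun m => p ^ 2 ∣ pv b L m)).card : ℕ) : ℝ) := by
      exact_mod_cast h2
    refine h3.trans (le_of_eq ?_)
    push_cast
    refine Finset.sum_congr rfl fun e _ => Finset.sum_congr rfl fun p _ => ?_
    unfold cnt
    congr!
  refine h1.trans ((Finset.sum_le_sum hZ).trans (le_of_eq ?_))
  rw [Finset.sum_const, nsmul_eq_mul]

theorem thm (hM : S_MEAN) (hLS : S_LS) : S_SQ := by
  classical
  intro b η τ κ K hp θ hθ A
  have hb64 := hp.b64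
  have hb1 : 1 ≤ b := by omega
  have hbR : (64 : ℝ) ≤ b := by exact_mod_cast hb64
  have hb1R : (1 : ℝ) < b := by linarith
  have hb0 : (0 : ℝ) < b := by linarith
  have hC := CC_ge b hb1
  have hK1 := hp.K1
  have hK : 0 < K := lt_of_lt_of_le one_pos hK1
  have hκ := hp.kap
  have hκ2 : κ < 2 := by
    have h1 : (b : ℝ) ^ κ < (b : ℝ) ^ (1 + τ) := by
      have h2 : 0 < (b : ℝ) ^ κ := Real.rpow_pos_of_pos hb0 _
      have := hp.lev
      nlinarith
    have h2 := (Real.rpow_lt_rpow_left_iff hb1R).1 h1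
    linarith [hp.tau1]
  -- the parameters
  have hr0 : 0 < (b : ℝ) ^ κ * CC b / (b : ℝ) ^ (1 + τ) := by positivity
  have hr1 : (b : ℝ) ^ κ * CC b / (b : ℝ) ^ (1 + τ) < 1 := by
    rw [div_lt_one (by positivity)]
    exact hp.lev
  obtain ⟨r, hr⟩ : ∃ r, (b : ℝ) ^ κ * CC b / (b : ℝ) ^ (1 + τ) = r := ⟨_, rfl⟩
  obtain ⟨g, hg⟩ : ∃ g, 2 / (b : ℝ) ^ η = g := ⟨_, rfl⟩
  rw [hr] at hr0 hr1
  have hg0 : 0 < g := by rw [← hg]; positivity
  have hg1 : g < 1 := by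
    rw [← hg, div_lt_one (by positivity)]
    exact hp.two
  obtain ⟨k, hk⟩ : ∃ k : ℕ, r ^ k < 1 / (b : ℝ) ^ 2 :=
    exists_pow_lt_of_lt_one (by positivity) hr1
  have hk1 : 1 ≤ k := by
    rcases Nat.eq_zero_or_pos k with h | h
    · exfalso
      rw [h, pow_zero, lt_div_iff₀ (by positivity)] at hk
      nlinarith
    · exact h
  have hkr : (b : ℝ) ^ 2 * r ^ k ≤ 1 := by
    rw [lt_div_iff₀ (by positivity)] at hk
    linarith
  -- the decay
  obtain ⟨a, ha⟩ : ∃ a : ℝ, max (g ^ θ) r = a := ⟨_, rfl⟩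
  have ha0 : 0 < a := by rw [← ha]; exact lt_of_lt_of_le hr0 (le_max_right _ _)
  have ha1 : a < 1 := by rw [← ha]; exact max_lt (Real.rpow_lt_one hg0.le hg1 hθ) hr1
  have hag : g ^ θ ≤ a := by rw [← ha]; exact le_max_left _ _
  have har : r ≤ a := by rw [← ha]; exact le_max_right _ _
  obtain ⟨μ, hμ⟩ : ∃ μ : ℝ, a ^ (((2 * (k + 1) : ℕ) : ℝ)⁻¹) = μ := ⟨_, rfl⟩
  have hμ0 : 0 < μ := by rw [← hμ]; positivity
  have hμ1 : μ < 1 := by
    rw [← hμ]
    exact Real.rpow_lt_one ha0.le ha1 (by positivity)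
  have hμa : μ ^ (2 * (k + 1)) = a := by
    rw [← hμ]
    exact Real.rpow_inv_natCast_pow ha0.le (by omega)
  -- the divisor bound
  obtain ⟨δ, hδ⟩ : ∃ δ : ℝ, Real.logb b (μ⁻¹) / 2 = δ := ⟨_, rfl⟩
  have hδ0 : 0 < δ := by
    rw [← hδ]
    have := Real.logb_pos (b := b) hb1R ((one_lt_inv₀ hμ0).2 hμ1)
    linarith
  have h10 : (b : ℝ) ^ (2 * δ) = μ⁻¹ := by
    rw [← hδ, mul_div_cancel₀ _ (two_ne_zero)]
    exact Real.rpow_logb hb0 hb1R.ne' (inv_pos.2 hμ0)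
  obtain ⟨C, hC0, hCd⟩ := divisor_bound δ hδ0
  obtain ⟨C1, hC1⟩ : ∃ C1 : ℝ, k * (K * (b : ℝ) ^ 2 + 1) + K * (b : ℝ) ^ 3 * (g ^ 4)⁻¹ = C1 := ⟨_, rfl⟩
  have hC10 : 0 < C1 := by rw [← hC1]; positivity
  obtain ⟨C2, hC2⟩ : ∃ C2 : ℝ, 3 * (b : ℝ) * C1 * C * (μ ^ 2)⁻¹ = C2 := ⟨_, rfl⟩
  have hC20 : (0 : ℝ) < C2 := by rw [← hC2]; positivity
  have hlim := tendsto_pow_const_mul_const_pow_of_abs_lt_one (A + 1) (r := μ)
    (by rw [abs_of_pos hμ0]; exact hμ1)
  have hev : ∀ᶠ L : ℕ in atTop, (L : ℝ) ^ (A + 1) * μ ^ L < C2⁻¹ :=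
    hlim.eventually (gt_mem_nhds (inv_pos.2 hC20))
  obtain ⟨L0, hL0'⟩ := exists_nat_gt (6 / θ)
  obtain ⟨L1, hL1⟩ := eventually_atTop.1 (hev.and (eventually_ge_atTop (max L0 1)))
  refine ⟨L1, fun L hL t hA => ?_⟩
  obtain ⟨hL2, hL3⟩ := hL1 L hL
  have hL3a : L0 ≤ L := (le_max_left _ _).trans hL3
  have hL3b : 1 ≤ L := (le_max_right _ _).trans hL3
  have hL0 : (0 : ℝ) < L := by exact_mod_cast hL3b
  have hθL : 6 < θ * L := by
    have e1 : (6 / θ : ℝ) < L := lt_of_lt_of_le hL0' (by exact_mod_cast hL3a)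
    rw [div_lt_iff₀ hθ] at e1
    linarith
  obtain ⟨T, hTdef⟩ : ∃ T : ℝ, C * ((b : ℝ) ^ (2 * L + 4)) ^ δ = T := ⟨_, rfl⟩
  have hT : ∀ n : ℕ, 1 ≤ n → n ≤ b ^ (2 * L + 3) → (n.divisors.card : ℝ) ≤ T := by
    intro n h1 h2
    refine (hCd n h1).trans ?_
    rw [← hTdef]
    refine mul_le_mul_of_nonneg_left ?_ hC0.le
    refine Real.rpow_le_rpow (Nat.cast_nonneg _) ?_ hδ0.le
    exact_mod_cast h2.trans (Nat.pow_le_pow_right (by omega) (by omega))
  have hT1 : 1 ≤ T := by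
    have := hT 1 le_rfl (Nat.one_le_pow _ _ (by omega))
    simpa using this
  have hTval : T = C * (μ⁻¹) ^ (L + 2) := by
    rw [← hTdef, ← h10, ← Real.rpow_natCast, ← Real.rpow_natCast,
      ← Real.rpow_mul hb0.le, ← Real.rpow_mul hb0.le]
    congr 2
    push_cast
    ring
  have hX0 : 0 ≤ XX b t L := prod_nonneg fun _ _ => by positivity
  -- one block
  obtain ⟨lam, hlam⟩ : ∃ lam : ℝ, (μ ^ 2) ^ L = lam := ⟨_, rfl⟩
  have hl0 : 0 < lam := by rw [← hlam]; positivity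
  have hlk : lam ^ (k + 1) = a ^ L := by
    rw [← hlam, ← pow_mul, ← pow_mul, ← hμa, ← pow_mul]
    congr 1
    ring
  have hg4 : 1 ≤ (b : ℝ) ^ 3 * (g ^ 4)⁻¹ := by
    have h1 : (1 : ℝ) ≤ (b : ℝ) ^ 3 := one_le_pow₀ hb1R.le
    have h2 : (1 : ℝ) ≤ (g ^ 4)⁻¹ := (one_le_inv₀ (by positivity)).2 (pow_le_one₀ hg0.le hg1.le)
    nlinarith
  have hblock : ∀ (J P : ℕ), J ≤ L → (P : ℝ) ≤ (b : ℝ) ^ (κ * L) → b ^ (J + 2) ≤ P →
      ((P ≤ b ^ (J + 3) ∧ θ * L ≤ J + 4) ∨ J = L) →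
      ∑ m ∈ (Ico P (2 * P)).filter (fun m => m.Coprime (2 * b)), cnt b t L (m ^ 2) ≤
        XX b t L * (C1 * lam * T) := by
    intro J P hJ hP h2 hc
    have h3 := sq_block hM hLS hp hA hk1 (by rw [hr]; exact hkr) hl0 hT hJ hP h2
    refine h3.trans (mul_le_mul_of_nonneg_left ?_ hX0)
    have h4 : (P : ℝ) * ∏ c ∈ range J, (1 / ((sz b t c : ℝ) * t c)) ≤
        K * ((b : ℝ) ^ 3 * (g ^ 4)⁻¹) * lam ^ (k + 1) := by
      rcases hc with ⟨h5, h6⟩ | h5
      · have h7 := central hp hA hJ (P := (P : ℝ)) (by exact_mod_cast h5)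
        rw [hg] at h7
        refine h7.trans ?_
        have h8 : g ^ J ≤ (g ^ 4)⁻¹ * a ^ L := by
          have h9 : g ^ (J + 4) ≤ (g ^ θ) ^ L := by
            rw [← Real.rpow_natCast, ← Real.rpow_natCast, ← Real.rpow_mul hg0.le]
            refine Real.rpow_le_rpow_of_exponent_ge hg0 hg1.le ?_
            push_cast
            linarith
          have h10 : (g ^ θ) ^ L ≤ a ^ L := pow_le_pow_left₀ (by positivity) hag L
          have h11 : g ^ 4 * g ^ J ≤ a ^ L := by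
            rw [← pow_add, add_comm]
            exact h9.trans h10
          rw [inv_mul_eq_div, le_div_iff₀ (by positivity)]
          linarith
        rw [hlk]
        calc K * (b : ℝ) ^ 3 * g ^ J ≤ K * (b : ℝ) ^ 3 * ((g ^ 4)⁻¹ * a ^ L) :=
              mul_le_mul_of_nonneg_left h8 (by positivity)
          _ = _ := by ring
      · subst h5
        have h7 := central_top hp hA (Nat.cast_nonneg P) hP
        rw [hr] at h7
        refine h7.trans ?_
        rw [hlk]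
        have h8 : r ^ J ≤ a ^ J := pow_le_pow_left₀ hr0.le har J
        calc K * r ^ J ≤ K * a ^ J := mul_le_mul_of_nonneg_left h8 hK.le
          _ = K * 1 * a ^ J := by ring
          _ ≤ K * ((b : ℝ) ^ 3 * (g ^ 4)⁻¹) * a ^ J := by gcongr
    have h5 : (lam ^ k)⁻¹ * (P * ∏ c ∈ range J, (1 / ((sz b t c : ℝ) * t c))) ≤
        K * (b : ℝ) ^ 3 * (g ^ 4)⁻¹ * lam * T := by
      calc (lam ^ k)⁻¹ * (P * ∏ c ∈ range J, (1 / ((sz b t c : ℝ) * t c)))
          ≤ (lam ^ k)⁻¹ * (K * ((b : ℝ) ^ 3 * (g ^ 4)⁻¹) * lam ^ (k + 1)) :=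
            mul_le_mul_of_nonneg_left h4 (by positivity)
        _ = K * (b : ℝ) ^ 3 * (g ^ 4)⁻¹ * lam * 1 := by
            have e : (lam ^ k)⁻¹ * lam ^ (k + 1) = lam := by
              rw [pow_succ lam k, ← mul_assoc, inv_mul_cancel₀ (pow_pos hl0 k).ne', one_mul]
            calc (lam ^ k)⁻¹ * (K * ((b : ℝ) ^ 3 * (g ^ 4)⁻¹) * lam ^ (k + 1))
                = K * (b : ℝ) ^ 3 * (g ^ 4)⁻¹ * ((lam ^ k)⁻¹ * lam ^ (k + 1)) := by ring
              _ = _ := by rw [e, mul_one]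
        _ ≤ _ := mul_le_mul_of_nonneg_left hT1 (by positivity)
    have h6 : (k : ℝ) * lam * (K * (b : ℝ) ^ 2 + T) ≤ k * (K * (b : ℝ) ^ 2 + 1) * lam * T := by
      have h7 : K * (b : ℝ) ^ 2 + T ≤ (K * (b : ℝ) ^ 2 + 1) * T := by
        have : K * (b : ℝ) ^ 2 * 1 ≤ K * (b : ℝ) ^ 2 * T := mul_le_mul_of_nonneg_left hT1 (by positivity)
        linarith
      calc (k : ℝ) * lam * (K * (b : ℝ) ^ 2 + T) ≤ k * lam * ((K * (b : ℝ) ^ 2 + 1) * T) :=
            mul_le_mul_of_nonneg_left h7 (by positivity)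
        _ = _ := by ring
    calc (k : ℝ) * lam * (K * (b : ℝ) ^ 2 + T) +
          (lam ^ k)⁻¹ * (P * ∏ c ∈ range J, (1 / ((sz b t c : ℝ) * t c)))
        ≤ k * (K * (b : ℝ) ^ 2 + 1) * lam * T + K * (b : ℝ) ^ 3 * (g ^ 4)⁻¹ * lam * T :=
          add_le_add h6 h5
      _ = C1 * lam * T := by rw [← hC1]; ring
  -- dyadic blocks
  let E : Finset ℕ := (range (2 * b * L + 1)).filter fun e =>
    ∃ J : ℕ, J ≤ L ∧ b ^ (J + 2) ≤ 2 ^ e ∧ (((2 ^ e : ℕ) : ℝ)) ≤ (b : ℝ) ^ (κ * L) ∧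
      ((2 ^ e ≤ b ^ (J + 3) ∧ θ * L ≤ J + 4) ∨ J = L)
  have hE : ∀ e ∈ E,
      ∑ m ∈ (Ico (2 ^ e) (2 * 2 ^ e)).filter (fun m => m.Coprime (2 * b)), cnt b t L (m ^ 2) ≤
        XX b t L * (C1 * lam * T) := by
    intro e he
    obtain ⟨_, J, h1, h2, h3, h5⟩ := Finset.mem_filter.1 he
    exact hblock J (2 ^ e) h1 h3 h2 h5
  have hcov := cover b t L E _ hE (fun m => ∃ p : ℕ, p.Coprime (2 * b) ∧
      (b : ℝ) ^ (θ * L) ≤ p ∧ (p : ℝ) ≤ (b : ℝ) ^ (κ * L) ∧ p ^ 2 ∣ pv b L m) (by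
    rintro m ⟨p, hp1, hp2, hp3, hp4⟩
    have hp0 : p ≠ 0 := by
      rintro rfl
      have : (0 : ℝ) < (b : ℝ) ^ (θ * L) := by positivity
      rw [Nat.cast_zero] at hp2
      linarith
    have hlow : 2 ^ Nat.log 2 p ≤ p := Nat.pow_log_le_self 2 hp0
    have hupp : p < 2 * 2 ^ Nat.log 2 p := by
      have := Nat.lt_pow_succ_log_self (b := 2) (by norm_num) p
      rwa [pow_succ'] at this
    obtain ⟨J, hJ⟩ : ∃ J, Nat.log b (2 ^ Nat.log 2 p) = J := ⟨_, rfl⟩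
    have hJ1 : b ^ J ≤ 2 ^ Nat.log 2 p := by
      rw [← hJ]; exact Nat.pow_log_le_self b (by positivity)
    have hJ2 : 2 ^ Nat.log 2 p < b ^ (J + 1) := by
      rw [← hJ]; exact Nat.lt_pow_succ_log_self (b := b) (by omega) _
    have hJlow : θ * L ≤ J + 2 := by
      have h1 : (b : ℝ) ^ (θ * L) ≤ (b : ℝ) ^ ((J : ℝ) + 2) := by
        refine hp2.trans ?_
        have h2 : p ≤ b ^ (J + 2) := by
          have e1 : b ^ (J + 2) = b * b ^ (J + 1) := by rw [pow_succ']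
          rw [e1]
          have e2 : 2 * b ^ (J + 1) ≤ b * b ^ (J + 1) := Nat.mul_le_mul_right _ (by omega)
          omega
        have h3 : (b : ℝ) ^ ((J : ℝ) + 2) = (b : ℝ) ^ (J + 2) := by
          rw [← Real.rpow_natCast]
          push_cast
          rfl
        rw [h3]
        exact_mod_cast h2
      exact (Real.rpow_le_rpow_left_iff hb1R).1 h1
    have hJpos : 2 ≤ J := by
      have : (2 : ℝ) ≤ J := by linarith
      exact_mod_cast this
    have hplow : (((2 ^ Nat.log 2 p : ℕ) : ℝ)) ≤ (b : ℝ) ^ (κ * L) := by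
      refine le_trans ?_ hp3
      exact_mod_cast hlow
    have hlog : Nat.log 2 p < 2 * b * L + 1 := by
      have h0 : (b : ℝ) ^ (κ * L) ≤ (b : ℝ) ^ (2 * L) := by
        rw [← Real.rpow_natCast]
        refine Real.rpow_le_rpow_of_exponent_le hb1R.le ?_
        push_cast
        exact mul_le_mul_of_nonneg_right hκ2.le hL0.le
      have h00 : 2 ^ Nat.log 2 p ≤ b ^ (2 * L) := by exact_mod_cast hplow.trans h0
      have h1 : (2 : ℕ) ^ Nat.log 2 p ≤ 2 ^ (2 * b * L) := by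
        refine h00.trans ?_
        calc b ^ (2 * L) ≤ (2 ^ b) ^ (2 * L) := Nat.pow_le_pow_left (Nat.lt_two_pow_self).le _
          _ = 2 ^ (2 * b * L) := by rw [← pow_mul]; congr 1; ring
      have h2 := (Nat.pow_le_pow_iff_right (by norm_num : 1 < 2)).1 h1
      omega
    refine ⟨Nat.log 2 p, ?_, p, hlow, hupp, hp1, hp4⟩
    rw [Finset.mem_filter, Finset.mem_range]
    refine ⟨hlog, ?_⟩
    rcases le_or_gt (J - 2) L with h | h
    · refine ⟨J - 2, h, ?_, hplow, Or.inl ⟨?_, ?_⟩⟩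
      · rw [show J - 2 + 2 = J by omega]; exact hJ1
      · rw [show J - 2 + 3 = J + 1 by omega]; exact hJ2.le
      · have : ((J - 2 : ℕ) : ℝ) = J - 2 := by
          rw [Nat.cast_sub hJpos]; push_cast; rfl
        rw [this]; linarith
    · refine ⟨L, le_rfl, ?_, hplow, Or.inr rfl⟩
      exact (Nat.pow_le_pow_right (by omega) (by omega)).trans hJ1)
  refine le_trans (le_of_eq ?_) (hcov.trans ?_)
  · congr!
  have hEc : (E.card : ℝ) ≤ 3 * b * L := by
    have : E.card ≤ 3 * b * L := by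
      refine (Finset.card_filter_le _ _).trans ?_
      rw [Finset.card_range]
      have : 1 ≤ b * L := Nat.one_le_iff_ne_zero.2 (by positivity)
      have e : 3 * b * L = 2 * b * L + b * L := by ring
      omega
    exact_mod_cast this
  have hZ0 : 0 ≤ XX b t L * (C1 * lam * T) := by
    have : 0 ≤ T := by linarith
    positivity
  calc (E.card : ℝ) * (XX b t L * (C1 * lam * T)) ≤ (3 * b * L) * (XX b t L * (C1 * lam * T)) :=
        mul_le_mul_of_nonneg_right hEc hZ0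
    _ = XX b t L * (C2 * (L * μ ^ L)) := by
        have e2 : lam * T = C * (μ ^ 2)⁻¹ * μ ^ L := by
          have e3 : (μ ^ 2) ^ L = μ ^ L * μ ^ L := by
            rw [← pow_mul, mul_comm 2 L, pow_mul, sq]
          have e4 : (μ⁻¹) ^ (L + 2) = (μ ^ L)⁻¹ * (μ ^ 2)⁻¹ := by
            rw [pow_add, inv_pow, inv_pow]
          have e5 : μ ^ L ≠ 0 := (pow_pos hμ0 L).ne'
          rw [hTval, ← hlam, e3, e4]
          field_simp
        have e6 : C1 * lam * T = C1 * (lam * T) := by ring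
        rw [e6, e2, ← hC2]
        ring
    _ ≤ XX b t L * (1 / (L : ℝ) ^ A) := by
        refine mul_le_mul_of_nonneg_left ?_ hX0
        rw [le_div_iff₀ (by positivity)]
        have e1 : C2 * (L * μ ^ L) * (L : ℝ) ^ A = C2 * ((L : ℝ) ^ (A + 1) * μ ^ L) := by
          rw [pow_succ]; ring
        rw [e1]
        calc C2 * ((L : ℝ) ^ (A + 1) * μ ^ L) ≤ C2 * C2⁻¹ :=
              mul_le_mul_of_nonneg_left hL2.le hC20.le
          _ = 1 := mul_inv_cancel₀ hC20.ne'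
    _ = XX b t L / (L : ℝ) ^ A := by ring

end Pool.Agent.Zk40.NP2
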